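import Pool.Agent.Lib.MP_e1f7e2_al.SU.Iface

set_option autoImplicit false

/-! Project SU3, modules P33 and P32. -/

open MvPolynomial

namespace Pool.Agent.Lib.MP_e1f7e2_al.SU.H65

section

variable {K : Type*} [Field K]

lemma sp3_add3C (f g h : MvPolynomial (Fin 3) K) (c : K) : sp3 f g (h + C c) = sp3 f g h := by
  have := sp3_add1 h f g (0 : K) 0 c
  rw [sp3_rot', sp3_rot' f g h]
  simpa using this

/-- replacing `f, g` by `f + c₁ h`, `g + c₂ h` -/
lemma sp3_shift (f g h : MvPolynomial (Fin 3) K) (c1 c2 : K) : sp3 (f + C c1 * h) (g + C c2 * h) h = sp3 f g h := by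
  have h1 := sp3_add1 f (g + C c2 * h) h (0 : K) c1 0
  have h2 := sp3_add1 g f h (0 : K) c2 0
  simp only [map_zero, zero_mul, add_zero] at h1 h2
  rw [h1, sp3_swap12, h2, sp3_swap12]

lemma sp3_shift2 (f g h : MvPolynomial (Fin 3) K) (c : K) : sp3 (f + C c * g) g h = sp3 f g h := by
  have h1 := sp3_add1 f g h c 0 0
  simpa using h1

variable {w : Fin 3 → ℝ}

/-- the good frame `(f₁ + c₁ f₃, f₂ + c₂ f₃, f₃)` -/
lemma good_shift (F : Facts K w) {f1 f2 f3 : MvPolynomial (Fin 3) K} (hg : Good w f1 f2 f3) (c1 c2 : K) :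
    Good w (f1 + C c1 * f3) (f2 + C c2 * f3) f3 ∧ dg w (f1 + C c1 * f3) = dg w f1 ∧
      dg w (f2 + C c2 * f3) = dg w f2 := by
  have h13 : dg w f3 < dg w f1 := hg.d23.trans hg.d12
  have e1 : dg w (f1 + C c1 * f3) = dg w f1 :=
    F.d.add_left _ _ ((F.d.Cmul_le c1 f3).trans_lt h13)
  have e2 : dg w (f2 + C c2 * f3) = dg w f2 :=
    F.d.add_left _ _ ((F.d.Cmul_le c2 f3).trans_lt hg.d23)
  refine ⟨⟨?_, by rw [e1, e2]; exact hg.d12, by rw [e2]; exact hg.d23⟩, e1, e2⟩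
  have h1 := hg.fr.elem2 (C c2 * X 1 : MvPolynomial (Fin 2) K)
  rw [ev_mul, ev_C, ev_X1] at h1
  have h2 := h1.elem1 (C c1 * X 1 : MvPolynomial (Fin 2) K)
  rw [ev_mul, ev_C, ev_X1] at h2
  exact h2

lemma good_shift2 (F : Facts K w) {f1 f2 f3 : MvPolynomial (Fin 3) K} (hg : Good w f1 f2 f3) (c : K) :
    Good w (f1 + C c * f2) f2 f3 ∧ dg w (f1 + C c * f2) = dg w f1 := by
  have e1 : dg w (f1 + C c * f2) = dg w f1 :=
    F.d.add_left _ _ ((F.d.Cmul_le c f2).trans_lt hg.d12)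
  refine ⟨⟨?_, by rw [e1]; exact hg.d12, hg.d23⟩, e1⟩
  have h1 := hg.fr.elem1 (C c * X 0 : MvPolynomial (Fin 2) K)
  rw [ev_mul, ev_C, ev_X0] at h1
  exact h1

/-- a strict move cannot be constant -/
lemma not_const (F : Facts K w) {f1 f2 f3 : MvPolynomial (Fin 3) K} (hg : Good w f1 f2 f3) (c : K) {f g : MvPolynomial (Fin 3) K}
    (h : dg w (f3 + ev (C c : MvPolynomial (Fin 2) K) f g) < dg w f3) : False := by
  have hpos : 0 < dg w f3 := F.b.dpos _ _ _ hg.fr.swap13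
  rw [ev_C, F.d.add_left _ _ (by rw [F.d.const]; exact hpos)] at h
  exact lt_irrefl _ h

/-- the bracket of a type 3 plane different from `⟨f₁,f₂⟩` -/
lemma br_shift (F : Facts K w) {f1 f2 f3 : MvPolynomial (Fin 3) K} {c1 c2 : K} {γ : ℝ}
    (hc : c1 ≠ 0 ∨ c2 ≠ 0) (hγ : 0 < γ) (h3 : br w f1 f2 < γ) (h1 : γ < br w f2 f3)
    (h2 : br w f1 f3 = γ + br w f2 f3) :
    γ < br w (f1 + C c1 * f3) (f2 + C c2 * f3) := by
  have key : cr (D (f1 + C c1 * f3)) (D (f2 + C c2 * f3)) =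
      cr (D f1) (D f2) + ((C c2 : MvPolynomial (Fin 3) K) • cr (D f1) (D f3) + (C c1 : MvPolynomial (Fin 3) K) • cr (D f3) (D f2)) := by
    rw [D_add, D_add, D_Cmul, D_Cmul, cr_add_left, cr_add_right, cr_add_right, cr_smul_left,
      cr_smul_left, cr_smul_right, cr_smul_right, cr_self]
    simp only [smul_zero, add_zero]
    abel
  have e3 : dv w (cr (D f1) (D f2)) = br w f1 f2 := rfl
  have e2 : dv w (cr (D f1) (D f3)) = br w f1 f3 := rfl
  have e1 : dv w (cr (D f3) (D f2)) = br w f2 f3 := F.b.comm f3 f2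
  have hk : br w (f1 + C c1 * f3) (f2 + C c2 * f3) = dv w (cr (D f1) (D f2) +
      ((C c2 : MvPolynomial (Fin 3) K) • cr (D f1) (D f3) + (C c1 : MvPolynomial (Fin 3) K) • cr (D f3) (D f2))) := by
    rw [← key]; rfl
  have hle1 : dv w ((C c1 : MvPolynomial (Fin 3) K) • cr (D f3) (D f2)) ≤ br w f2 f3 := by
    have := F.v.smul_le (C c1 : MvPolynomial (Fin 3) K) (cr (D f3) (D f2))
    rw [F.d.const, e1, zero_add] at this
    exact this
  rw [hk]
  by_cases hc2 : c2 = 0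
  · have hc1 : c1 ≠ 0 := hc.resolve_right (fun h => h hc2)
    subst hc2
    have e4 : dv w ((C (0 : K) : MvPolynomial (Fin 3) K) • cr (D f1) (D f3) + (C c1 : MvPolynomial (Fin 3) K) • cr (D f3) (D f2)) =
        br w f2 f3 := by
      rw [map_zero, zero_smul, zero_add, F.v.Csmul _ _ hc1, e1]
    rw [F.v.add_right _ _ (by rw [e3, e4]; linarith), e4]
    exact h1
  · have e5 : dv w ((C c2 : MvPolynomial (Fin 3) K) • cr (D f1) (D f3)) = br w f1 f3 := by
      rw [F.v.Csmul _ _ hc2, e2]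
    have e4 : dv w ((C c2 : MvPolynomial (Fin 3) K) • cr (D f1) (D f3) + (C c1 : MvPolynomial (Fin 3) K) • cr (D f3) (D f2)) =
        br w f1 f3 := by
      rw [F.v.add_left _ _ (by rw [e5]; linarith), e5]
    rw [F.v.add_right _ _ (by rw [e3, e4]; linarith), e4]
    linarith

/-- if `deg f₁ = n deg f₂` (or `n deg f₃`) there is a strict type 1 move -/
lemma res (F : Facts K w) {f1 f2 f3 : MvPolynomial (Fin 3) K} (hg : Good w f1 f2 f3) {n : ℕ}
    (h : dg w f1 = n * dg w f2) :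
    ∃ c : K, dg w (f1 + ev (-(C c * X 0 ^ n) : MvPolynomial (Fin 2) K) f2 f3) < dg w f1 := by
  have hpos : 0 < dg w f1 := F.b.dpos _ _ _ hg.fr
  obtain ⟨c, -, hc⟩ := F.d.lead f1 (f2 ^ n) hpos (by rw [F.d.pow, h])
  refine ⟨c, ?_⟩
  rw [ev_neg, ev_mul, ev_C, ev_pow, ev_X0, ← sub_eq_add_neg]
  exact hc

lemma res' (F : Facts K w) {f1 f2 f3 : MvPolynomial (Fin 3) K} (hg : Good w f1 f2 f3) {n : ℕ}
    (h : dg w f1 = n * dg w f3) :
    ∃ c : K, dg w (f1 + ev (-(C c * X 1 ^ n) : MvPolynomial (Fin 2) K) f2 f3) < dg w f1 := by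
  have hpos : 0 < dg w f1 := F.b.dpos _ _ _ hg.fr
  obtain ⟨c, -, hc⟩ := F.d.lead f1 (f3 ^ n) hpos (by rw [F.d.pow, h])
  refine ⟨c, ?_⟩
  rw [ev_neg, ev_mul, ev_C, ev_pow, ev_X1, ← sub_eq_add_neg]
  exact hc

/-- a type 1 vertex written in the frame `(f₁ + c₁ f₃, f₂ + c₂ f₃, f₃)` -/
lemma ev_shift1 (f1 f2 f3 : MvPolynomial (Fin 3) K) (c1 c2 : K) (Q : MvPolynomial (Fin 2) K) :
    (f1 + C c1 * f3) + ev (aeval ![X 0 - C c2 * X 1, X 1] Q - C c1 * X 1 : MvPolynomial (Fin 2) K) (f2 + C c2 * f3) f3 =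
      f1 + ev Q f2 f3 := by
  rw [ev_sub, ← ev_comp]
  simp only [ev_sub, ev_mul, ev_C, ev_X0, ev_X1]
  rw [show f2 + C c2 * f3 - C c2 * f3 = f2 by ring]
  ring

theorem p33 (F : Facts K w) (ht : T3Statement K w) (h31 : P31Statement K w)
    (h13 : P13Statement K w) : P33Statement K w := by
  intro f1 f2 f3 c1 c2 P P' hg hc ih hs hr hs'
  obtain ⟨hg', e1, e2⟩ := good_shift F hg c1 c2
  have hV : sp3 (f1 + C c1 * f3) (f2 + C c2 * f3) f3 = sp3 f1 f2 f3 := sp3_shift f1 f2 f3 c1 c2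
  have ih' : IHyp K w (dg w (f1 + C c1 * f3) + dg w (f2 + C c2 * f3) + dg w f3) := by
    rw [e1, e2]; exact ih
  have hn : ∀ n : ℕ, dg w f1 = n * dg w f2 →
      Red w (sp3 (f1 + C c1 * f3) (f2 + C c2 * f3)
        (f3 + ev P' (f1 + C c1 * f3) (f2 + C c2 * f3))) := by
    intro n hn
    obtain ⟨c, hcn⟩ := res F hg hn
    have hy := h31 f1 f2 f3 P _ hg ih hs hr hcn.le
    refine h13 _ _ _ (aeval ![X 0 - C c2 * X 1, X 1] (-(C c * X 0 ^ n) : MvPolynomial (Fin 2) K) - C c1 * X 1) P' hg' ih'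
      ?_ ?_ hs'
    · rw [ev_shift1, e1]; exact hcn
    · rw [ev_shift1]
      have := sp3_shift (f1 + ev (-(C c * X 0 ^ n) : MvPolynomial (Fin 2) K) f2 f3) f2 f3 0 c2
      rw [map_zero, zero_mul, add_zero] at this
      rw [this]; exact hy
  rcases ht f1 f2 f3 P hg hs.le with ⟨c, rfl⟩ | ⟨n, -, h⟩ | ⟨γ, t⟩
  · exact (not_const F hg c hs).elim
  · exact hn n h
  rcases ht _ _ _ P' hg' hs' with ⟨c, rfl⟩ | ⟨n, -, h⟩ | ⟨γ', t'⟩
  · rw [ev_C, sp3_add3C, hV]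
    exact Red.e3 f1 f2 f3 P hg hs hr
  · rw [e1, e2] at h
    exact hn n h
  · exfalso
    have hγ' : γ' = γ := by
      have h1 := t'.d1
      rw [e1, t.d1] at h1
      linarith
    subst hγ'
    have hsg : 0 < sg w := F.b.sgpos
    have a1 := t.lo
    have a2 := t.hi
    have a3 := t.b1
    have a4 := t.b2
    have a5 := t.d2
    have a6 := hg.d23
    have a7 := t'.lo
    have a8 := t'.hi
    have := br_shift F (f1 := f1) (f2 := f2) (f3 := f3) hc t.hγ (by linarith) (by linarith) a4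
    linarith

theorem p32 (F : Facts K w) (ht : T3Statement K w) (h23 : D23Statement K w)
    (h31 : P31Statement K w) (h12 : P12Statement K w) : P32Statement K w := by
  intro f1 f2 f3 P P' hg ih hs hr hs'
  rcases ht f1 f2 f3 P hg hs.le with ⟨c, rfl⟩ | ⟨n, -, h⟩ | ⟨γ, t⟩
  · exact (not_const F hg c hs).elim
  · obtain ⟨c, hcn⟩ := res F hg h
    exact h12 f1 f2 f3 _ P' hg ih hcn (h31 f1 f2 f3 P _ hg ih hs hr hcn.le) hs'
  have hb3 : 0 < br w f1 f2 := F.b.bpos _ _ _ hg.fr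
  have a1 := t.lo
  have a2 := t.hi
  have a5 := t.d2
  have a6 := hg.d23
  have hd : dg w (ev P' f1 f3) ≤ 2 * γ := by
    have h1 : ev P' f1 f3 = (f2 + ev P' f1 f3) - f2 := by ring
    rw [h1, ← t.d2]
    exact (F.d.sub_le _ _).trans (max_le hs' le_rfl)
  by_cases hdeg : dg w (ev P' f1 f3) < vdg (dg w f1) (dg w f3) P'
  · have h2 := h23 f1 f2 f3 P' γ hg.fr t.hγ t.d1 t.d2 (by linarith) (by linarith) (by linarith)
      hdeg hd
    obtain ⟨c, hcn⟩ := res' F hg (n := 2) (by rw [t.d1]; push_cast; linarith)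
    exact h12 f1 f2 f3 _ P' hg ih hcn (h31 f1 f2 f3 P _ hg ih hs hr hcn.le) hs'
  · have hv : vdg (dg w f1) (dg w f3) P' ≤ 2 * γ := (not_lt.mp hdeg).trans hd
    have hγ := t.hγ
    have hm : ∀ m ∈ P'.support, m 0 = 0 := by
      intro m hm
      have h1 := (F.p.ge (dg w f1) (dg w f3) P' m hm).trans hv
      by_contra h0
      have h2 : (1 : ℝ) ≤ (m 0 : ℝ) := by exact_mod_cast Nat.one_le_iff_ne_zero.mpr h0
      have h3 : (0 : ℝ) ≤ (m 1 : ℝ) := Nat.cast_nonneg _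
      have h4 := F.d.nn f3
      rw [t.d1] at h1
      have h5 : 3 * γ ≤ (m 0 : ℝ) * (3 * γ) := le_mul_of_one_le_left (by linarith) h2
      have h6 : 0 ≤ (m 1 : ℝ) * dg w f3 := mul_nonneg h3 h4
      linarith
    obtain ⟨R, hR⟩ := F.p.uni1 P' hm
    have hlin : ∃ a b : K, ev P' f1 f3 = C a * f3 + C b := by
      by_cases hR0 : R = 0
      · exact ⟨0, 0, by rw [hR, hR0]; simp⟩
      have hnd : R.natDegree ≤ 1 := by
        by_contra hcon
        push Not at hcon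
        have h1 := F.p.auni f3 R hR0
        rw [← hR f1 f3] at h1
        have h2 : (2 : ℝ) ≤ (R.natDegree : ℝ) := by exact_mod_cast hcon
        have h3 : 2 * dg w f3 ≤ (R.natDegree : ℝ) * dg w f3 :=
          mul_le_mul_of_nonneg_right h2 (F.d.nn f3)
        linarith
      obtain ⟨a, b, hab⟩ : ∃ a b : K, R = Polynomial.C a * Polynomial.X + Polynomial.C b :=
        ⟨_, _, Polynomial.eq_X_add_C_of_natDegree_le_one hnd⟩
      refine ⟨a, b, ?_⟩
      rw [hR, hab, map_add, map_mul, Polynomial.aeval_C, Polynomial.aeval_C, Polynomial.aeval_X,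
        algebraMap_eq]
    obtain ⟨a, b, hab⟩ := hlin
    rw [hab]
    have h1 : sp3 f1 (f2 + (C a * f3 + C b)) f3 = sp3 f1 f2 f3 := by
      have := sp3_add1 f2 f1 f3 (0 : K) a b
      rw [map_zero, zero_mul, add_zero] at this
      rw [sp3_swap12, ← add_assoc, this, sp3_swap12]
    rw [h1]
    exact Red.e3 f1 f2 f3 P hg hs hr

end

end Pool.Agent.Lib.MP_e1f7e2_al.SU.H65
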