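import Pool.Agent.Lib.MP_e1f7e2_al.SU.H65.P33

set_option autoImplicit false

/-! Project SU3, module STEP. -/

open MvPolynomial

namespace Pool.Agent.Lib.MP_e1f7e2_al.SU.H65

section

variable {K : Type*} [Field K]

/-- a type 1 vertex written in the frame `(f₁ + c f₂, f₂, f₃)` -/
lemma ev_shift12 (f1 f2 f3 : MvPolynomial (Fin 3) K) (c : K) (Q : MvPolynomial (Fin 2) K) :
    (f1 + C c * f2) + ev (Q - C c * X 0) f2 f3 = f1 + ev Q f2 f3 := by
  rw [ev_sub, ev_mul, ev_C, ev_X0]; ring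

/-- a type 2 vertex written in the frame `(f₁ + c₁ f₃, f₂ + c₂ f₃, f₃)` -/
lemma ev_shift2 (f1 f2 f3 : MvPolynomial (Fin 3) K) (c1 c2 : K) (P : MvPolynomial (Fin 2) K) :
    (f2 + C c2 * f3) + ev (aeval ![X 0 - C c1 * X 1, X 1] P - C c2 * X 1) (f1 + C c1 * f3) f3 =
      f2 + ev P f1 f3 := by
  rw [ev_sub, ← ev_comp]
  simp only [ev_sub, ev_mul, ev_C, ev_X0, ev_X1]
  rw [show f1 + C c1 * f3 - C c1 * f3 = f1 by ring]
  ring

/-- a type 3 vertex written in the frame `(f₁ + c f₂, f₂, f₃)` -/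
lemma ev_shift3 (f1 f2 f3 : MvPolynomial (Fin 3) K) (c : K) (P : MvPolynomial (Fin 2) K) :
    f3 + ev (aeval ![X 0 - C c * X 1, X 1] P) (f1 + C c * f2) f2 = f3 + ev P f1 f2 := by
  rw [← ev_comp]
  simp only [ev_sub, ev_mul, ev_C, ev_X0, ev_X1]
  rw [show f1 + C c * f2 - C c * f2 = f1 by ring]

variable {w : Fin 3 → ℝ}

theorem step (F : Facts K w) (hinv : InvStatement K w) (hnb : NbStatement K w)
    (hk : KnbStatement K w) (h12 : P12Statement K w) (h21 : P21Statement K w)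
    (h13 : P13Statement K w) (h31 : P31Statement K w) (h23 : P23Statement K w)
    (h32 : P32Statement K w) (h22 : P22Statement K w) (h33 : P33Statement K w) :
    StepStatement K w := by
  intro f1 f2 f3 hg ih hr V' hV'
  rcases hinv f1 f2 f3 hg hr with hb | ⟨Q, hQ, hU⟩ | ⟨c, P, hP, hU⟩ | ⟨c1, c2, P, hP, hU⟩ |
    ⟨c1, c2, c3, a, P, γ, hP, hU⟩
  · -- degree `s`
    rcases hnb f1 f2 f3 V' hg hV' with h | ⟨Q, rfl, hQ⟩ | ⟨c, P, rfl, hP⟩ | ⟨c1, c2, P, rfl, hP⟩
    · exact h hr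
    · exact Red.base _ _ _ (hg.fr.elem1 Q) (by linarith)
    · obtain ⟨hg', e1⟩ := good_shift2 F hg c
      exact Red.base _ _ _ (hg'.fr.elem2 P) (by rw [e1]; linarith)
    · obtain ⟨hg', e1, e2⟩ := good_shift F hg c1 c2
      exact Red.base _ _ _ (hg'.fr.elem3 P) (by rw [e1, e2]; linarith)
  · -- strict move of type 1
    rcases hnb f1 f2 f3 V' hg hV' with h | ⟨Q', rfl, hQ'⟩ | ⟨c, P, rfl, hP⟩ | ⟨c1, c2, P, rfl, hP⟩
    · exact h hr
    · have h1 := ih.go1 (hg.fr.elem1 Q) (by linarith) hU (Q' - Q)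
      rwa [ev_sub, add_assoc, add_sub_cancel] at h1
    · obtain ⟨hg', e1⟩ := good_shift2 F hg c
      refine h12 _ f2 f3 (Q - C c * X 0) P hg' (by rw [e1]; exact ih) ?_ ?_ hP
      · rw [ev_shift12, e1]; exact hQ
      · rw [ev_shift12]; exact hU
    · obtain ⟨hg', e1, e2⟩ := good_shift F hg c1 c2
      refine h13 _ _ f3 (aeval ![X 0 - C c2 * X 1, X 1] Q - C c1 * X 1) P hg'
        (by rw [e1, e2]; exact ih) ?_ ?_ hP
      · rw [ev_shift1, e1]; exact hQ
      · rw [ev_shift1]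
        have := sp3_shift (f1 + ev Q f2 f3) f2 f3 0 c2
        rw [map_zero, zero_mul, add_zero] at this
        rw [this]; exact hU
  · -- strict move of type 2
    obtain ⟨hg', e1⟩ := good_shift2 F hg c
    have ih' : IHyp K w (dg w (f1 + C c * f2) + dg w f2 + dg w f3) := by rw [e1]; exact ih
    have hV : sp3 (f1 + C c * f2) f2 f3 = sp3 f1 f2 f3 := sp3_shift2 f1 f2 f3 c
    rw [← hV] at hr hV'
    clear hV ih hg
    generalize f1 + C c * f2 = k1 at hg' ih' hr hV' hP hU e1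
    rcases hnb k1 f2 f3 V' hg' hV' with h | ⟨Q', rfl, hQ'⟩ | ⟨c', P', rfl, hP'⟩ |
      ⟨c1, c2, P', rfl, hP'⟩
    · exact h hr
    · exact h21 k1 f2 f3 P Q' hg' ih' hP hU hQ'
    · by_cases hc : c' = 0
      · subst hc
        simp only [map_zero, zero_mul, add_zero]
        have h1 := ih'.go2 (hg'.fr.elem2 P) (by linarith) hU (P' - P)
        rwa [ev_sub, add_assoc, add_sub_cancel] at h1
      · exact h22 k1 f2 f3 c' P P' hg' hc ih' hP hU hP'
    · obtain ⟨hg2, e2, e3⟩ := good_shift F hg' c1 c2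
      refine h23 _ _ f3 (aeval ![X 0 - C c1 * X 1, X 1] P - C c2 * X 1) P' hg2
        (by rw [e2, e3]; exact ih') ?_ ?_ hP'
      · rw [ev_shift2, e3]; exact hP
      · rw [ev_shift2]
        have := sp3_shift k1 (f2 + ev P k1 f3) f3 c1 0
        rw [map_zero, zero_mul, add_zero] at this
        rw [this]; exact hU
  · -- strict move of type 3
    obtain ⟨hg', e1, e2⟩ := good_shift F hg c1 c2
    have ih' : IHyp K w (dg w (f1 + C c1 * f3) + dg w (f2 + C c2 * f3) + dg w f3) := by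
      rw [e1, e2]; exact ih
    have hV : sp3 (f1 + C c1 * f3) (f2 + C c2 * f3) f3 = sp3 f1 f2 f3 := sp3_shift f1 f2 f3 c1 c2
    rw [← hV] at hr hV'
    clear hV ih hg
    generalize f1 + C c1 * f3 = k1 at hg' ih' hr hV' hP hU e1
    generalize f2 + C c2 * f3 = k2 at hg' ih' hr hV' hP hU e2
    rcases hnb k1 k2 f3 V' hg' hV' with h | ⟨Q', rfl, hQ'⟩ | ⟨c', P', rfl, hP'⟩ |
      ⟨c1', c2', P', rfl, hP'⟩
    · exact h hr
    · exact h31 k1 k2 f3 P Q' hg' ih' hP hU hQ'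
    · obtain ⟨hg2, e3⟩ := good_shift2 F hg' c'
      refine h32 _ k2 f3 (aeval ![X 0 - C c' * X 1, X 1] P) P' hg2 (by rw [e3]; exact ih') ?_ ?_ hP'
      · rw [ev_shift3]; exact hP
      · rw [ev_shift3, sp3_shift2]; exact hU
    · by_cases hc : c1' = 0 ∧ c2' = 0
      · obtain ⟨rfl, rfl⟩ := hc
        simp only [map_zero, zero_mul, add_zero]
        have h1 := ih'.go3 (hg'.fr.elem3 P) (by linarith) hU (P' - P)
        rwa [ev_sub, add_assoc, add_sub_cancel] at h1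
      · exact h33 k1 k2 f3 c1' c2' P P' hg' (by tauto) ih' hP hU hP'
  · -- K-move
    refine hk _ _ _ a P γ hP hU V' ?_
    have h1 := sp3_add1 f1 (f2 + C c3 * f3) f3 c1 (c2 - c1 * c3) 0
    have h2 := sp3_shift f1 f2 f3 0 c3
    rw [map_zero, zero_mul, add_zero] at h2
    rw [h2] at h1
    have h3 : f1 + C c1 * f2 + C c2 * f3 =
        f1 + C c1 * (f2 + C c3 * f3) + C (c2 - c1 * c3) * f3 + C 0 := by
      simp only [map_sub, map_mul, map_zero]; ring
    rw [h3, h1]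
    exact hV'

end

end Pool.Agent.Lib.MP_e1f7e2_al.SU.H65
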